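import Pool.Agent.X20.Tr.AvE

/-!
# Multiple polynomial averages along `± ⌊α n ^ c⌋`

From Mathlib: `Equiv.Perm X`: the bijections of `X`, with composition as multiplication; `Polynomial.eval`: evaluation;
`AEStronglyMeasurable`: measurability up to null sets; `dimH E`: the Hausdorff dimension of `E`; `⌊x⌋₊`: the integer
part; `𝓝`: neighbourhoods.
-/

set_option autoImplicit false

namespace Pool.Agent.Results.MP_4d8f14_an.AlongDilatedPowers

open Finset Filter Topology MeasureTheory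
open Pool.Agent.X20.Tr

universe u

/-- the composition `T 1 ^ (P 1 j (m)) ⋯ T d ^ (P d j (m))` -/
def S {X : Type u} {d k : ℕ} (T : Fin d → Equiv.Perm X) (P : Fin d → Fin k → Polynomial ℤ) (j : Fin k) (m : ℤ) :
    Equiv.Perm X :=
  (List.ofFn fun i : Fin d => T i ^ (P i j).eval m).prod

/-- the average `A_N` of `∏ j, f j (S j (n) x)` over `|n| ≤ N` -/
noncomputable def avg {X : Type u} {d k : ℕ} (T : Fin d → Equiv.Perm X) (P : Fin d → Fin k → Polynomial ℤ)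
    (f : Fin k → X → ℂ) (x : X) (N : ℕ) : ℂ :=
  ((2 * N + 1 : ℕ) : ℂ)⁻¹ * ∑ n ∈ Icc (-(N : ℤ)) N, ∏ j, f j (S T P j n x)

/-- the average over the `2 N` integers `± ⌊α n ^ c⌋`, `n ≤ N` -/
noncomputable def sparseAvg {X : Type u} {d k : ℕ} (c α : ℝ) (T : Fin d → Equiv.Perm X)
    (P : Fin d → Fin k → Polynomial ℤ) (f : Fin k → X → ℂ) (x : X) (N : ℕ) : ℂ :=
  ((2 * N : ℕ) : ℂ)⁻¹ * ∑ n ∈ Icc 1 N, (∏ j, f j (S T P j ⌊α * (n : ℝ) ^ c⌋₊ x) +
    ∏ j, f j (S T P j (-(⌊α * (n : ℝ) ^ c⌋₊ : ℤ)) x))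

/-- the invertible measure preserving maps -/
def mpg {X : Type u} [MeasurableSpace X] (μ : Measure X) : Subgroup (Equiv.Perm X) where
  carrier := {σ | MeasurePreserving σ μ μ ∧ MeasurePreserving σ.symm μ μ}
  mul_mem' := by
    rintro σ τ ⟨h1, h2⟩ ⟨h3, h4⟩
    exact ⟨h1.comp h3, h4.comp h2⟩
  one_mem' := ⟨MeasurePreserving.id μ, MeasurePreserving.id μ⟩
  inv_mem' := by
    rintro σ ⟨h1, h2⟩
    exact ⟨h2, h1⟩

lemma mem_mpg {X : Type u} [MeasurableSpace X] {μ : Measure X} {σ : Equiv.Perm X} (h1 : Measurable σ.symm)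
    (h2 : MeasurePreserving σ μ μ) : σ ∈ mpg μ := by
  refine ⟨h2, ?_⟩
  have h3 : MeasurePreserving (⟨σ, h2.measurable, h1⟩ : X ≃ᵐ X) μ μ := h2
  exact h3.symm

lemma S_mem {X : Type u} [MeasurableSpace X] {μ : Measure X} {d k : ℕ} {T : Fin d → Equiv.Perm X}
    (hT : ∀ i, T i ∈ mpg μ) (P : Fin d → Fin k → Polynomial ℤ) (j : Fin k) (m : ℤ) : S T P j m ∈ mpg μ := by
  unfold S
  apply Subgroup.list_prod_mem
  intro σ hσ
  rw [List.mem_ofFn] at hσ
  obtain ⟨i, rfl⟩ := hσ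
  exact Subgroup.zpow_mem _ (hT i) _

lemma sum_two (w : ℤ → ℂ) (N : ℕ) : ∑ n ∈ Icc (-(N : ℤ)) N, w n = w 0 + ∑ m ∈ Icc 1 N, (w m + w (-(m : ℤ))) := by
  induction N with
  | zero => simp
  | succ N ih =>
    have e : Icc (-((N + 1 : ℕ) : ℤ)) ((N + 1 : ℕ) : ℤ) =
        insert ((N + 1 : ℕ) : ℤ) (insert (-((N + 1 : ℕ) : ℤ)) (Icc (-(N : ℤ)) N)) := by
      ext n
      simp only [mem_Icc, mem_insert]
      omega
    rw [e, sum_insert, sum_insert, ih, sum_Icc_succ_top (by omega)]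
    · ring
    · simp only [mem_Icc]
      omega
    · simp only [mem_Icc, mem_insert]
      omega

lemma two_sided (w : ℤ → ℂ) (L : ℂ) :
    Tendsto (fun N : ℕ => ((2 * N + 1 : ℕ) : ℂ)⁻¹ * ∑ n ∈ Icc (-(N : ℤ)) N, w n) atTop (𝓝 L) ↔
      Tendsto (av fun m : ℕ => (w m + w (-(m : ℤ))) / 2) atTop (𝓝 L) := by
  have hc : Tendsto (fun N : ℕ => ((2 * N + 1 : ℕ) : ℂ)⁻¹) atTop (𝓝 0) := by
    have h1 : Tendsto (fun N : ℕ => 2 * N + 1) atTop atTop :=
      tendsto_atTop_mono (fun N => by show N ≤ 2 * N + 1; omega) tendsto_id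
    exact (tendsto_inv_atTop_nhds_zero_nat (𝕜 := ℂ)).comp h1
  have e : ∀ N : ℕ, ((2 * N + 1 : ℕ) : ℂ)⁻¹ * ∑ n ∈ Icc (-(N : ℤ)) N, w n =
      ((2 * N + 1 : ℕ) : ℂ)⁻¹ * w 0 + (1 - ((2 * N + 1 : ℕ) : ℂ)⁻¹) * av (fun m : ℕ => (w m + w (-(m : ℤ))) / 2) N := by
    intro N
    rw [sum_two]
    unfold av cs
    rw [← sum_div]
    have h2 : ((2 * N + 1 : ℕ) : ℂ) ≠ 0 := by exact_mod_cast (show 2 * N + 1 ≠ 0 by omega)
    rcases Nat.eq_zero_or_pos N with rfl | hN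
    · simp
    · have h3 : (N : ℂ) ≠ 0 := by exact_mod_cast hN.ne'
      push_cast at h2 ⊢
      field_simp
      ring
  constructor
  · intro h
    have h1 := (h.sub (hc.mul_const (w 0))).div (hc.const_sub 1) (by simp)
    rw [zero_mul, sub_zero, sub_zero, div_one] at h1
    refine h1.congr' ?_
    filter_upwards [eventually_ge_atTop 1] with N hN
    show (((2 * N + 1 : ℕ) : ℂ)⁻¹ * ∑ n ∈ Icc (-(N : ℤ)) N, w n - ((2 * N + 1 : ℕ) : ℂ)⁻¹ * w 0) /
      (1 - ((2 * N + 1 : ℕ) : ℂ)⁻¹) = _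
    rw [e, add_sub_cancel_left, mul_comm, mul_div_assoc, div_self, mul_one]
    have h3 : ((2 * N + 1 : ℕ) : ℂ) ≠ 0 := by exact_mod_cast (show 2 * N + 1 ≠ 0 by omega)
    intro h4
    rw [sub_eq_zero, eq_comm, inv_eq_one] at h4
    have h5 : 2 * N + 1 = 1 := by exact_mod_cast h4
    omega
  · intro h
    have h1 := (hc.mul_const (w 0)).add ((hc.const_sub 1).mul h)
    rw [zero_mul, sub_zero, one_mul, zero_add] at h1
    exact h1.congr fun N => (e N).symm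

/-- For every real `c > 1` there is `0 < κ < 1` such that for all invertible measure preserving maps `T 1, …, T d` of a
probability space (no relation between them is assumed), all integer polynomials `P i j` and all `f 1, …, f k` in `L^∞`:

* for almost every `x` there is a set `E` of Hausdorff dimension at most `1 - κ` such that for every real `α > 0` outside
  `E` the averages `A_N` converge to `L` if and only if those along `± ⌊α n ^ c⌋` converge to `L`;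
* for almost every `α > 0` this holds for almost every `x`;
* for almost every `α > 0`: the averages `A_N` converge almost everywhere if and only if those along `± ⌊α n ^ c⌋` do. -/
theorem result (c : ℝ) (hc : 1 < c) : ∃ κ : ℝ, 0 < κ ∧ κ < 1 ∧
    ∀ (X : Type u) [MeasurableSpace X] (μ : Measure X) [IsProbabilityMeasure μ] (d k : ℕ) (T : Fin d → Equiv.Perm X),
    (∀ i, Measurable (T i).symm ∧ MeasurePreserving (T i) μ μ) → ∀ (P : Fin d → Fin k → Polynomial ℤ)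
      (f : Fin k → X → ℂ), (∀ j, AEStronglyMeasurable (f j) μ) → (∀ j, ∃ C : ℝ, ∀ᵐ x ∂μ, ‖f j x‖ ≤ C) →
      (∀ᵐ x ∂μ, ∃ E : Set ℝ, dimH E ≤ ENNReal.ofReal (1 - κ) ∧ ∀ α : ℝ, 0 < α → α ∉ E → ∀ L : ℂ,
        Tendsto (avg T P f x) atTop (𝓝 L) ↔ Tendsto (sparseAvg c α T P f x) atTop (𝓝 L)) ∧
      (∀ᵐ α : ℝ, 0 < α → ∀ᵐ x ∂μ, ∀ L : ℂ,
        Tendsto (avg T P f x) atTop (𝓝 L) ↔ Tendsto (sparseAvg c α T P f x) atTop (𝓝 L)) ∧
      (∀ᵐ α : ℝ, 0 < α → ((∀ᵐ x ∂μ, ∃ L : ℂ, Tendsto (avg T P f x) atTop (𝓝 L)) ↔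
        ∀ᵐ x ∂μ, ∃ L : ℂ, Tendsto (sparseAvg c α T P f x) atTop (𝓝 L))) := by
  obtain ⟨κ, hκ0, hκ1, H⟩ := aeSparse.{u} c hc
  refine ⟨κ, hκ0, hκ1, fun X _ μ _ d k T hT P f hf hfb => ?_⟩
  have q : ∀ (j : Fin k) (m : ℤ), Measure.QuasiMeasurePreserving (S T P j m) μ μ := fun j m =>
    (S_mem (fun i => mem_mpg (hT i).1 (hT i).2) P j m).1.quasiMeasurePreserving
  obtain ⟨w, hw⟩ : ∃ w : X → ℤ → ℂ, ∀ x m, w x m = ∏ j, f j (S T P j m x) := ⟨_, fun _ _ => rfl⟩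
  have hwm : ∀ m : ℤ, AEStronglyMeasurable (fun x => w x m) μ := by
    intro m
    simp only [hw]
    exact Finset.aestronglyMeasurable_fun_prod _ fun j _ => (hf j).comp_quasiMeasurePreserving (q j m)
  have e1 : ∀ (x : X) (L : ℂ), Tendsto (avg T P f x) atTop (𝓝 L) ↔
      Tendsto (av fun m : ℕ => (w x m + w x (-(m : ℤ))) / 2) atTop (𝓝 L) := by
    intro x L
    rw [← two_sided (w x) L]
    unfold avg
    simp only [hw]
  have e2 : ∀ (α : ℝ) (x : X) (L : ℂ), Tendsto (sparseAvg c α T P f x) atTop (𝓝 L) ↔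
      Tendsto (av fun n : ℕ => (w x (Pool.Agent.Y854.PS.ms α c n : ℕ) +
        w x (-((Pool.Agent.Y854.PS.ms α c n : ℕ) : ℤ))) / 2) atTop (𝓝 L) := by
    intro α x L
    have e3 : sparseAvg c α T P f x = av fun n : ℕ => (w x (Pool.Agent.Y854.PS.ms α c n : ℕ) +
        w x (-((Pool.Agent.Y854.PS.ms α c n : ℕ) : ℤ))) / 2 := by
      funext N
      unfold sparseAvg av cs
      simp only [hw]
      rw [← sum_div, Nat.cast_mul, mul_inv, one_div]
      show _ = (N : ℂ)⁻¹ * ((∑ n ∈ Icc 1 N, (∏ j, f j (S T P j ⌊α * (n : ℝ) ^ c⌋₊ x) +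
        ∏ j, f j (S T P j (-(⌊α * (n : ℝ) ^ c⌋₊ : ℤ)) x))) / 2)
      push_cast
      ring
    rw [e3]
  obtain ⟨a1, a2⟩ := H X μ (fun x m => (w x m + w x (-(m : ℤ))) / 2)
    (fun m => by
      have := ((hwm m).add (hwm (-(m : ℤ)))).mul_const ((1 : ℂ) / 2)
      refine this.congr (Eventually.of_forall fun x => ?_)
      show (w x m + w x (-(m : ℤ))) * (1 / 2) = _
      ring)
    (by
      choose C hC using hfb
      have b1 : ∀ᵐ x ∂μ, ∀ (j : Fin k) (m : ℤ), ‖f j (S T P j m x)‖ ≤ C j :=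
        ae_all_iff.2 fun j => ae_all_iff.2 fun m => (q j m).ae (hC j)
      filter_upwards [b1] with x h1
      have h2 : ∀ m : ℤ, ‖w x m‖ ≤ ∏ j, C j := by
        intro m
        rw [hw, norm_prod]
        exact prod_le_prod (fun j _ => norm_nonneg _) fun j _ => h1 j m
      refine ⟨∏ j, C j, fun m => ?_⟩
      rw [norm_div, RCLike.norm_ofNat]
      have := norm_add_le (w x m) (w x (-(m : ℤ)))
      linarith [h2 m, h2 (-(m : ℤ))])
  have a2' : ∀ᵐ α : ℝ, 0 < α → ∀ᵐ x ∂μ, ∀ L : ℂ,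
        Tendsto (avg T P f x) atTop (𝓝 L) ↔ Tendsto (sparseAvg c α T P f x) atTop (𝓝 L) := by
    filter_upwards [a2] with α hα hα0
    filter_upwards [hα hα0] with x hx L
    rw [e1, e2]
    exact hx L
  refine ⟨?_, a2', ?_⟩
  · filter_upwards [a1] with x ⟨E, hE, hx⟩
    refine ⟨E, hE, fun α hα hαE L => ?_⟩
    rw [e1, e2]
    exact hx α hα hαE L
  · filter_upwards [a2'] with α hα hα0
    have h1 := hα hα0
    constructor
    · intro h2
      filter_upwards [h1, h2] with x k1 ⟨L, k2⟩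
      exact ⟨L, (k1 L).1 k2⟩
    · intro h2
      filter_upwards [h1, h2] with x k1 ⟨L, k2⟩
      exact ⟨L, (k1 L).2 k2⟩

end Pool.Agent.Results.MP_4d8f14_an.AlongDilatedPowers
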