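import Pool.Agent.Y957.MC.Maps

set_option autoImplicit false

/-!
# Multiple averages of arbitrary maps at almost all Beatty type polynomial times

Let `T_1, ..., T_m` be arbitrary measure preserving maps of a probability space: they need not commute, nor generate
a nilpotent or solvable group, nor be invertible, nor embed in flows. Let `p_1, ..., p_m` be real polynomials of
positive degree with positive leading coefficient, or positive powers of `n` (in any combination), and let `f_j` be
in `L^∞`. For Lebesgue almost every `(a_1, ..., a_m)` with `a_j > 0` the averages of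
`∏ f_j (T_j^{⌊a_j p_j(n)⌋} x)` converge for almost every `x`, and the limit is the product of the conditional
expectations of the `f_j` on the `T_j`-invariant sets.

For integers `a_j`, integer polynomials and maps which generate a nilpotent group this is the question; without a
condition on the group the convergence fails in general (Bergelson and Leibman, solvable groups). The theorem says
that for almost all real `a_j` there is no obstruction of any kind, algebraic or analytic. (`⌊y⌋` is `0` for
negative `y`; this concerns only finitely many `n`.)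
-/

namespace Pool.Agent.Results.MP_4d8f14_an.ArbitraryMapsBeattyTimes

open MeasureTheory Filter Finset

universe u

/-- the sequences of times: a real polynomial of positive degree with positive leading coefficient, or a positive
power of `n` -/
def IsTimes (p : ℕ → ℝ) : Prop :=
  (∃ P : Polynomial ℝ, 0 < P.natDegree ∧ 0 < P.leadingCoeff ∧ ∀ n : ℕ, p n = P.eval (n : ℝ)) ∨
    ∃ θ : ℝ, 0 < θ ∧ ∀ n : ℕ, p n = (n : ℝ) ^ θ

lemma IsTimes.good {p : ℕ → ℝ} (h : IsTimes p) : Pool.Agent.Y957.MC.Good p := by
  rcases h with ⟨P, h1, h2, h3⟩ | ⟨θ, h1, h2⟩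
  · rw [show p = fun n : ℕ => P.eval (n : ℝ) from funext h3]
    exact Pool.Agent.Y957.MC.good_poly h1 h2
  · rw [show p = fun n : ℕ => (n : ℝ) ^ θ from funext h2]
    exact Pool.Agent.Y957.MC.good_pow h1

/-- For arbitrary measure preserving maps `T_1, ..., T_m` of a probability space, arbitrary sequences
`p_1, ..., p_m` as above, all `f_j` in `L^∞` and almost every `a` in `(0, ∞)^m`, the averages
`(1/N) ∑_{n ≤ N} ∏_j f_j (T_j^{⌊a_j p_j(n)⌋} x)` converge for almost every `x` to `∏_j E(f_j | T_j)(x)`. -/
theorem result (X : Type u) [MeasurableSpace X] (μ : Measure X) [IsProbabilityMeasure μ] (m : ℕ)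
    (T : Fin m → X → X) (hT : ∀ j, MeasurePreserving (T j) μ μ) (p : Fin m → ℕ → ℝ) (hp : ∀ j, IsTimes (p j))
    (f : Fin m → X → ℂ) (hf : ∀ j, AEStronglyMeasurable (f j) μ) (hfb : ∀ j, ∃ C : ℝ, ∀ᵐ x ∂μ, ‖f j x‖ ≤ C) :
    ∀ᵐ a : Fin m → ℝ, (∀ j, 0 < a j) → ∀ᵐ x ∂μ,
      Tendsto (fun N : ℕ => (1 / (N : ℂ)) * ∑ n ∈ Icc 1 N, ∏ j, f j ((T j)^[⌊a j * p j n⌋₊] x)) atTop
        (nhds (∏ j, (μ[f j | MeasurableSpace.invariants (T j)]) x)) :=
  Pool.Agent.Y957.MC.maps_Linf hT (fun j => (hp j).good) hf hfb

end Pool.Agent.Results.MP_4d8f14_an.ArbitraryMapsBeattyTimes
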