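import Pool.Agent.X159.PE.NilW

/-!
# MP_4d8f14_an: averages with the weights `w = g * 1` (Dirichlet convolution)

Let `g` and `g'` be real arithmetic functions with `g * g' = 1` (Dirichlet inverses of each other),
`∑ |g(d)| / d < ∞` and `∑ |g'(d)| / d < ∞`, and `w(n) = ∑_{d ∣ n} g(d)`. Then the conjecture is
equivalent to the almost everywhere convergence, for all data, of the averages
`(1 / (2N + 1)) ∑_{|n| ≤ N} w(|n|) ∏_j f_j(g_j(n) x)`.

For example, `w` can be the indicator of the integers without prime factors in a set `P` of primes such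
that `∑ 1/d` over the integers `d` composed of primes of `P` converges.
-/

set_option autoImplicit false

namespace Pool.Agent.Results.MP_4d8f14_an.ConvolutionWeights

open MeasureTheory Finset
open scoped ENNReal
open Pool.Agent.X159.PE.Conv

/-- the statement of Q1 -/
def Q1 : Prop :=
  ∀ (X : Type) [MeasurableSpace X] (μ : Measure X) [IsProbabilityMeasure μ]
    (d m : ℕ) (T : Fin d → Equiv.Perm X),
    (∀ i, Measurable ⇑(T i).symm) →
    (∀ i, MeasurePreserving (⇑(T i)) μ μ) →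
    Group.IsNilpotent (Subgroup.closure (Set.range T)) →
    ∀ (P : Fin d → Fin m → Polynomial ℤ), (∀ i j, (P i j).eval 0 = 0) →
    ∀ (f : Fin m → X → ℂ), (∀ j, MemLp (f j) ∞ μ) →
    ∀ᵐ x ∂μ, ∃ L : ℂ, Filter.Tendsto
      (fun N : ℕ => ((2 * N + 1 : ℕ) : ℂ)⁻¹ *
        ∑ n ∈ Finset.Icc (-(N : ℤ)) (N : ℤ),
          ∏ j : Fin m, f j ((List.ofFn fun i : Fin d => T i ^ (P i j).eval n).prod x))
      Filter.atTop (nhds L)

open Classical in
/-- the statement of Q1 for the averages over the `n ≠ 0` without prime factors in `S` -/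
def Q1Coprime (S : Set ℕ) : Prop :=
  ∀ (X : Type) [MeasurableSpace X] (μ : Measure X) [IsProbabilityMeasure μ]
    (d m : ℕ) (T : Fin d → Equiv.Perm X),
    (∀ i, Measurable ⇑(T i).symm) →
    (∀ i, MeasurePreserving (⇑(T i)) μ μ) →
    Group.IsNilpotent (Subgroup.closure (Set.range T)) →
    ∀ (P : Fin d → Fin m → Polynomial ℤ), (∀ i j, (P i j).eval 0 = 0) →
    ∀ (f : Fin m → X → ℂ), (∀ j, MemLp (f j) ∞ μ) →
    ∀ᵐ x ∂μ, ∃ L : ℂ, Filter.Tendsto
      (fun N : ℕ => ((2 * N + 1 : ℕ) : ℂ)⁻¹ *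
        ∑ n ∈ Finset.Icc (-(N : ℤ)) (N : ℤ) with (n ≠ 0 ∧ ∀ p ∈ S, ¬ p ∣ n.natAbs),
          ∏ j : Fin m, f j ((List.ofFn fun i : Fin d => T i ^ (P i j).eval n).prod x))
      Filter.atTop (nhds L)

theorem q1_iff : Q1 ↔ NilP (fun _ => 1) := by
  constructor
  · intro h X _ μ _ d m T hs hT hN P hP f hf
    filter_upwards [h X μ d m T hs hT hN P hP f hf] with x hx
    obtain ⟨L, hL⟩ := hx
    refine ⟨L, hL.congr fun N => ?_⟩
    congr 1
    refine Finset.sum_congr rfl fun n _ => ?_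
    rw [Complex.ofReal_one, one_mul]
  · intro h X _ μ _ d m T hs hT hN P hP f hf
    filter_upwards [h X μ d m T hs hT hN P hP f hf] with x hx
    obtain ⟨L, hL⟩ := hx
    refine ⟨L, hL.congr fun N => ?_⟩
    congr 1
    refine Finset.sum_congr rfl fun n _ => ?_
    rw [Complex.ofReal_one, one_mul]

open Classical in
theorem sum_cop (S : Set ℕ) (A : Finset ℤ) (F : ℤ → ℂ) :
    ∑ n ∈ A with (n ≠ 0 ∧ ∀ p ∈ S, ¬ p ∣ n.natAbs), F n =
      ∑ n ∈ A, ((Pool.Agent.X159.WM.cop S n.natAbs : ℝ) : ℂ) * F n := by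
  rw [Finset.sum_filter]
  refine Finset.sum_congr rfl fun n _ => ?_
  rw [Pool.Agent.X159.WM.cop_apply]
  by_cases h : n ≠ 0 ∧ ∀ p ∈ S, ¬ p ∣ n.natAbs
  · have h' : n.natAbs ≠ 0 ∧ ∀ p ∈ S, ¬ p ∣ n.natAbs := ⟨Int.natAbs_ne_zero.2 h.1, h.2⟩
    rw [if_pos h, if_pos h', Complex.ofReal_one, one_mul]
  · have h' : ¬ (n.natAbs ≠ 0 ∧ ∀ p ∈ S, ¬ p ∣ n.natAbs) :=
      fun hh => h ⟨Int.natAbs_ne_zero.1 hh.1, hh.2⟩
    rw [if_neg h, if_neg h', Complex.ofReal_zero, zero_mul]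

theorem coprime_iff (S : Set ℕ) :
    Q1Coprime S ↔ NilP (fun n => Pool.Agent.X159.WM.cop S n) := by
  constructor
  · intro h X _ μ _ d m T hs hT hN P hP f hf
    filter_upwards [h X μ d m T hs hT hN P hP f hf] with x hx
    obtain ⟨L, hL⟩ := hx
    refine ⟨L, hL.congr fun N => ?_⟩
    rw [sum_cop]
  · intro h X _ μ _ d m T hs hT hN P hP f hf
    filter_upwards [h X μ d m T hs hT hN P hP f hf] with x hx
    obtain ⟨L, hL⟩ := hx
    refine ⟨L, hL.congr fun N => ?_⟩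
    rw [sum_cop]

/-- (1) If `∑ |g(d)| / d < ∞`, Q1 implies Q1 with the weight `g * 1`. (2) If moreover `g` has the
Dirichlet inverse `g'` and `∑ |g'(d)| / d < ∞`, they are equivalent. (3) Integers without prime factors
in `S`. -/
theorem result :
    (∀ g : ArithmeticFunction ℝ, Summ g → Q1 → NilP (fun n => (g * one) n)) ∧
    (∀ g g' : ArithmeticFunction ℝ, g * g' = 1 → Summ g → Summ g' →
      (NilP (fun n => (g * one) n) ↔ Q1)) ∧
    (∀ S : Set ℕ, (∀ p ∈ S, p.Prime) → Summ (Pool.Agent.X159.WM.ind S) →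
      (Q1Coprime S ↔ Q1)) := by
  have h2 : ∀ g g' : ArithmeticFunction ℝ, g * g' = 1 → Summ g → Summ g' →
      (NilP (fun n => (g * one) n) ↔ Q1) := by
    intro g g' hgg hg hg'
    rw [q1_iff]
    exact ⟨nil_bwd hgg hg hg', nil_fwd hg⟩
  refine ⟨fun g hg h => nil_fwd hg (q1_iff.1 h), h2, fun S hS hs => ?_⟩
  rw [coprime_iff, ← cop_eq S hS]
  refine h2 _ (Pool.Agent.X159.WM.ind S) ?_ (summ_pmul hs) hs
  rw [mul_comm]
  exact Pool.Agent.X159.WM.ind_mul_pmul S

end Pool.Agent.Results.MP_4d8f14_an.ConvolutionWeights
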